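import Pool.Agent.Helper47.RF.CoreGoals

/-!
# Project RF, packet C3: the commutator of the left invariant fields
-/

namespace Pool.Agent.Helper56.RF

open Pool.Agent.Helper47.RF

/-- Commutators of the imaginary units. -/
lemma qe_comm (i j : Fin 3) : qe i * qe j - qe j * qe i = (2 : ℝ) • ∑ k, eps i j k • qe k := by
  fin_cases i <;> fin_cases j <;>
    (ext <;> simp [qe, eps, Fin.sum_univ_three] <;> norm_num)

/-- First derivative of `E j f`. -/
lemma E_E_eq {f : HH → ℝ} (hf : Sm f) (i j : Fin 3) {x : HH} (hx : x ≠ 0) :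
    E i (E j f) x = (fderiv ℝ (fderiv ℝ f) x (x * qe i)) (x * qe j) +
      fderiv ℝ f x (x * qe i * qe j) := by
  have hopen : IsOpen ({0}ᶜ : Set HH) := isOpen_compl_singleton
  have hcd : ContDiffAt ℝ oo f x := (hf.cd).contDiffAt (hopen.mem_nhds hx)
  have h1 : DifferentiableAt ℝ (fderiv ℝ f) x := by
    have : ContDiffAt ℝ 1 (fderiv ℝ f) x := hcd.fderiv_right (m := 1) (by
      rw [show (1 : WithTop ℕ∞) + 1 = ((2 : ℕ∞) : WithTop ℕ∞) by norm_cast]
      exact_mod_cast le_top)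
    exact this.differentiableAt (by norm_num)
  have h2 : HasFDerivAt (fun y : HH => y * qe j)
      ((ContinuousLinearMap.mul ℝ HH).flip (qe j)) x :=
    ((ContinuousLinearMap.mul ℝ HH).flip (qe j)).hasFDerivAt
  have h3 := h1.hasFDerivAt.clm_apply h2
  have h4 : fderiv ℝ (E j f) x = _ := h3.fderiv
  show fderiv ℝ (E j f) x (x * qe i) = _
  rw [h4]
  simp
  ring

theorem commutator (i j : Fin 3) (f : HH → ℝ) (x : HH) (hf : Sm f) :
    E i (E j f) x - E j (E i f) x = 2 * ∑ k, eps i j k * E k f x := by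
  by_cases hx : x = 0
  · subst hx
    simp [E]
  have hopen : IsOpen ({0}ᶜ : Set HH) := isOpen_compl_singleton
  have hcd : ContDiffAt ℝ oo f x := (hf.cd).contDiffAt (hopen.mem_nhds hx)
  have hsym : IsSymmSndFDerivAt ℝ f x := hcd.isSymmSndFDerivAt (by
    rw [minSmoothness_of_isRCLikeNormedField]
    show ((2 : ℕ∞) : WithTop ℕ∞) ≤ ((⊤ : ℕ∞) : WithTop ℕ∞)
    exact WithTop.coe_le_coe.2 le_top)
  rw [E_E_eq hf i j hx, E_E_eq hf j i hx, hsym.eq (x * qe i) (x * qe j)]
  have e1 : fderiv ℝ f x (x * qe i * qe j) - fderiv ℝ f x (x * qe j * qe i) =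
      2 * ∑ k, eps i j k * E k f x := by
    rw [← map_sub, mul_assoc, mul_assoc, ← mul_sub, qe_comm]
    rw [mul_smul_comm, Finset.mul_sum, map_smul, map_sum, smul_eq_mul]
    congr 1
    refine Finset.sum_congr rfl fun k _ => ?_
    rw [mul_smul_comm, map_smul, smul_eq_mul]
    rfl
  linarith

theorem goal_C3 (_ : Goal_C1) (_ : Goal_C2) : Goal_C3 := commutator

end Pool.Agent.Helper56.RF
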