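import Pool.Agent.Helper73.RF.GoalsB

/-!
# Project RF, packet P1: pinching is preserved
-/

set_option autoImplicit false

open Finset

namespace Pool.Agent.Helper56.RF

open Pool.Agent.Helper73.RF

/-- A nonnegative binary quadratic form. -/
lemma binary_form {a b c : ℝ} (h : ∀ x y : ℝ, 0 ≤ a * x ^ 2 + 2 * c * x * y + b * y ^ 2) :
    0 ≤ a ∧ 0 ≤ b ∧ c ^ 2 ≤ a * b := by
  have ha : 0 ≤ a := by simpa using h 1 0
  have hb : 0 ≤ b := by simpa using h 0 1
  refine ⟨ha, hb, ?_⟩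
  have h1 : ∀ x : ℝ, 0 ≤ a * (x * x) + 2 * c * x + b := fun x => by
    have := h x 1
    linarith [this]
  have h2 := discrim_le_zero h1
  rw [discrim] at h2
  nlinarith

/-- Algebraic part at the minimum. -/
lemma alg_min {N : Fin 3 → Fin 3 → ℝ} (hs : ∀ i j, N i j = N j i)
    (hn : ∀ n : Fin 3 → ℝ, ∑ i, n i ^ 2 = 1 → N 0 0 ≤ ∑ i, ∑ j, n i * n j * N i j) :
    N 0 1 = 0 ∧ N 0 2 = 0 ∧ 2 * N 0 0 ≤ N 1 1 + N 2 2 ∧
      N 0 0 * (N 1 1 + N 2 2) - N 0 0 ^ 2 ≤ N 1 1 * N 2 2 - N 1 2 ^ 2 := by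
  have hom : ∀ n : Fin 3 → ℝ, N 0 0 * ∑ i, n i ^ 2 ≤ ∑ i, ∑ j, n i * n j * N i j := by
    intro n
    have h0 : 0 ≤ ∑ i, n i ^ 2 := Finset.sum_nonneg fun i _ => sq_nonneg _
    rcases h0.lt_or_eq with hpos | hz
    · set r := Real.sqrt (∑ i, n i ^ 2) with hr
      have hr2 : r ^ 2 = ∑ i, n i ^ 2 := Real.sq_sqrt h0
      have hr0 : 0 < r := Real.sqrt_pos.2 hpos
      have h1 := hn (fun i => n i / r) (by
        simp only [div_pow]
        rw [← Finset.sum_div, ← hr2]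
        field_simp)
      have h2 : ∑ i, ∑ j, n i / r * (n j / r) * N i j =
          (∑ i, ∑ j, n i * n j * N i j) / r ^ 2 := by
        rw [Finset.sum_div]
        refine Finset.sum_congr rfl fun i _ => ?_
        rw [Finset.sum_div]
        refine Finset.sum_congr rfl fun j _ => ?_
        field_simp
      rw [h2, le_div_iff₀ (by positivity), hr2] at h1
      exact h1
    · have hz' : ∀ i, n i = 0 := by
        intro i
        have := (Finset.sum_eq_zero_iff_of_nonneg (fun i _ => sq_nonneg (n i))).1 hz.symm i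
          (Finset.mem_univ i)
        exact pow_eq_zero_iff (two_ne_zero) |>.1 this
      simp [hz']
  have b1 : N 0 1 = 0 := by
    have h1 : ∀ x y : ℝ, 0 ≤ 0 * x ^ 2 + 2 * N 0 1 * x * y + (N 1 1 - N 0 0) * y ^ 2 := by
      intro x y
      have := hom ![x, y, 0]
      simp [Fin.sum_univ_three] at this
      rw [hs 1 0] at this
      linarith
    have h2 := (binary_form h1).2.2
    nlinarith
  have b2 : N 0 2 = 0 := by
    have h1 : ∀ x y : ℝ, 0 ≤ 0 * x ^ 2 + 2 * N 0 2 * x * y + (N 2 2 - N 0 0) * y ^ 2 := by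
      intro x y
      have := hom ![x, 0, y]
      simp [Fin.sum_univ_three] at this
      rw [hs 2 0] at this
      linarith
    have h2 := (binary_form h1).2.2
    nlinarith
  have h3 : ∀ x y : ℝ, 0 ≤ (N 1 1 - N 0 0) * x ^ 2 + 2 * N 1 2 * x * y +
      (N 2 2 - N 0 0) * y ^ 2 := by
    intro x y
    have := hom ![0, x, y]
    simp [Fin.sum_univ_three] at this
    rw [hs 2 1] at this
    linarith
  obtain ⟨h4, h5, h6⟩ := binary_form h3
  refine ⟨b1, b2, by linarith, by nlinarith⟩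

/-- The final inequality. -/
lemma fin_ineq {l A B C κ m s n2 s0 Cb K : ℝ} (hs0 : 0 < s0) (hl : 0 ≤ l)
    (hu : 2 * l ≤ A + B) (hd : l * (A + B) - l ^ 2 ≤ A * B - C ^ 2) (hs : s = l + (A + B))
    (hn2 : n2 = l ^ 2 + A ^ 2 + B ^ 2 + 2 * C ^ 2) (hm : m = l - κ * s) (hm0 : m < 0)
    (hss : s0 ≤ s) (hb : s ^ 2 + n2 ≤ Cb) (hK : K = Cb / s0) :
    K * m ≤ (4 * l ^ 2 - 2 * (s * l) + (s ^ 2 - n2)) - κ * (s ^ 2 + n2) := by
  have hspos : 0 < s := by linarith
  have hCb : 0 ≤ Cb := by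
    have : 0 ≤ n2 := by rw [hn2]; positivity
    nlinarith [sq_nonneg s]
  set h := (4 * l ^ 2 - 2 * (s * l) + (s ^ 2 - n2)) - κ * (s ^ 2 + n2) with hh
  have e1 : s * h = 2 * ((A + B) * (A * B - C ^ 2) + 2 * l * (A * B - C ^ 2) -
      l * (A + B) ^ 2) + m * (s ^ 2 + n2) := by
    have hk : κ * s = l - m := by linarith
    have : s * h = s * (4 * l ^ 2 - 2 * (s * l) + (s ^ 2 - n2)) - (κ * s) * (s ^ 2 + n2) := by
      rw [hh]; ring
    rw [this, hk, hn2, hs]
    ring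
  have e2 : 0 ≤ (A + B) * (A * B - C ^ 2) + 2 * l * (A * B - C ^ 2) - l * (A + B) ^ 2 := by
    have hu0 : 0 ≤ (A + B) + 2 * l := by linarith
    have := mul_le_mul_of_nonneg_left hd hu0
    have h2 : 0 ≤ l ^ 2 * ((A + B) - 2 * l) := mul_nonneg (sq_nonneg _) (by linarith)
    nlinarith
  have e3 : m * Cb ≤ m * (s ^ 2 + n2) := mul_le_mul_of_nonpos_left hb hm0.le
  have e4 : K * m * s ≤ m * Cb := by
    rw [hK]
    have h1 : Cb / s0 * m * s = (m * Cb) * (s / s0) := by field_simp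
    have h2 : 1 ≤ s / s0 := by rw [le_div_iff₀ hs0]; linarith
    have h3 : m * Cb ≤ 0 := mul_nonpos_of_nonpos_of_nonneg hm0.le hCb
    rw [h1]
    nlinarith
  have e5 : K * m * s ≤ h * s := by nlinarith
  exact le_of_mul_le_mul_right e5 hspos

theorem p1 (hmp1 : Mp1Stmt) (hbdd : BddStmt) (hevm : EvmStmt) (hevs : EvsStmt)
    (hvin : VinStmt) (hprd : PrdStmt) : P1Stmt := by
  intro T F hF hRF κ s0 hκ hs0 hB0 hIs hIM
  have hHs : F.Hop F.s = F.s ^ 2 + F.n2 := (hevs T F hF hRF).1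
  have hn2nn : ∀ z t, 0 ≤ F.ev z t F.n2 := by
    intro z t
    simp only [FBD.n2, map_sum, map_pow]
    exact Finset.sum_nonneg fun i _ => Finset.sum_nonneg fun j _ => sq_nonneg _
  have hsge : ∀ z t, s0 ≤ F.ev z t F.s := by
    intro z t
    have h := hmp1 T F hF.toBase (F.s - algebraMap ℝ F.B s0) 0 t 0 1 le_rfl t.2.2 le_rfl one_pos
      (by
        intro ε hε
        obtain ⟨t0, ht0, _, h0⟩ := hIs ε hε
        refine ⟨t0, ht0, fun z' t' _ h2 => ?_⟩
        have := h0 z' t' (by linarith)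
        simp only [map_sub, AlgHom.commutes]
        show -ε ≤ F.ev z' t' F.s - s0
        linarith)
      (by
        intro z' t' _ _ _ _ _
        rw [(hprd T F F.s (algebraMap ℝ F.B s0)).2.2.1, hHs,
          ((hprd T F F.s (algebraMap ℝ F.B s0)).2.2.2.1 s0).2, sub_zero, zero_mul]
        simp only [map_add, map_pow]
        have := hn2nn z' t'
        positivity)
      z t t.2.1 le_rfl
    simp only [map_sub, AlgHom.commutes] at h
    have h' : 0 ≤ F.ev z t F.s - s0 := h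
    linarith
  refine ⟨hsge, ?_⟩
  intro z t
  -- bound for `s² + n2`
  have hBs : F.Bd0 F.s := by
    have h3 := (hbdd T F hF.toBase).2.2.1
    have e : F.s = F.M 0 0 + F.M 1 1 + F.M 2 2 := by
      simp [FBD.s, Fin.sum_univ_three]
    rw [e]
    exact (h3 _ _ (h3 _ _ (hB0 0 0) (hB0 1 1)).1 (hB0 2 2)).1
  have hBd : F.Bd0 (F.s ^ 2 + F.n2) := by
    have h3 := (hbdd T F hF.toBase).2.2.1
    have hadd : ∀ f g, F.Bd0 f → F.Bd0 g → F.Bd0 (f + g) := fun f g hf hg => (h3 f g hf hg).1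
    have hsq : ∀ f, F.Bd0 f → F.Bd0 (f ^ 2) := fun f hf => by
      rw [pow_two]; exact (h3 f f hf hf).2.2.1
    have hn : F.Bd0 F.n2 := by
      simp only [FBD.n2, Fin.sum_univ_three]
      exact hadd _ _ (hadd _ _
        (hadd _ _ (hadd _ _ (hsq _ (hB0 0 0)) (hsq _ (hB0 0 1))) (hsq _ (hB0 0 2)))
        (hadd _ _ (hadd _ _ (hsq _ (hB0 1 0)) (hsq _ (hB0 1 1))) (hsq _ (hB0 1 2))))
        (hadd _ _ (hadd _ _ (hsq _ (hB0 2 0)) (hsq _ (hB0 2 1))) (hsq _ (hB0 2 2)))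
    exact hadd _ _ (hsq _ hBs) hn
  obtain ⟨Cb, hCb⟩ := (hbdd T F hF.toBase).1 (F.s ^ 2 + F.n2) t t.2.2 hBd
  have hCb0 : 0 ≤ Cb := (abs_nonneg _).trans (hCb z t le_rfl)
  have h := hmp1 T F hF.toBase (F.M 0 0 - κ • F.s) 0 t (Cb / s0) (κ * s0) le_rfl t.2.2
    (by positivity) (by positivity)
    (by
      intro ε hε
      obtain ⟨t0, ht0, _, h0⟩ := hIM ε hε
      refine ⟨t0, ht0, fun z' t' _ h2 => ?_⟩
      have := h0 z' t' (by linarith)
      linarith)
    (by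
      intro z' t' _ ht' hmin hm1 hm2
      have hev : ∀ w, F.ev w t' (F.M 0 0 - κ • F.s) = F.ev w t' (F.M 0 0) - κ * F.ev w t' F.s := by
        intro w
        simp only [map_sub, map_smul, smul_eq_mul]
      have hvs : F.VI F.s := (hvin T F hF).1
      have hn : ∀ n : Fin 3 → ℝ, ∑ i, n i ^ 2 = 1 →
          F.ev z' t' (F.M 0 0) ≤ ∑ i, ∑ j, n i * n j * F.ev z' t' (F.M i j) := by
        intro n hn1
        obtain ⟨w, hw⟩ := hF.fib z' n hn1
        obtain ⟨hw1, hw2⟩ := hw t'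
        have := hmin w
        rw [hev, hev, hw1 F.s hvs, hw2] at this
        linarith
      have hsz := hsge z' t'
      rw [hev] at hm1 hm2
      have hl : 0 ≤ F.ev z' t' (F.M 0 0) := by nlinarith
      obtain ⟨b1, b2, hu, hd⟩ := alg_min (N := fun i j => F.ev z' t' (F.M i j))
        (fun i j => by rw [hF.Msymm i j]) hn
      have b1' : F.ev z' t' (F.M 1 0) = 0 := by rw [hF.Msymm 1 0]; exact b1
      have b2' : F.ev z' t' (F.M 2 0) = 0 := by rw [hF.Msymm 2 0]; exact b2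
      have b3 : F.ev z' t' (F.M 2 1) = F.ev z' t' (F.M 1 2) := by rw [hF.Msymm 2 1]
      have hsum : F.ev z' t' F.s = F.ev z' t' (F.M 0 0) +
          (F.ev z' t' (F.M 1 1) + F.ev z' t' (F.M 2 2)) := by
        simp only [FBD.s, Fin.sum_univ_three, map_add]
        ring
      have hn2 : F.ev z' t' F.n2 = F.ev z' t' (F.M 0 0) ^ 2 + F.ev z' t' (F.M 1 1) ^ 2 +
          F.ev z' t' (F.M 2 2) ^ 2 + 2 * F.ev z' t' (F.M 1 2) ^ 2 := by
        simp only [FBD.n2, Fin.sum_univ_three, map_add, map_pow, b1, b2, b1', b2', b3]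
        ring
      have hcb : F.ev z' t' F.s ^ 2 + F.ev z' t' F.n2 ≤ Cb := by
        have := (le_abs_self _).trans (hCb z' t' ht')
        simpa only [map_add, map_pow] using this
      have key := fin_ineq (κ := κ) (m := F.ev z' t' (F.M 0 0) - κ * F.ev z' t' F.s)
        (K := Cb / s0) hs0 hl hu hd hsum hn2 rfl hm2 hsz hcb rfl
      rw [(hprd T F (F.M 0 0) (κ • F.s)).2.2.1, hev,
        ((hprd T F F.s (κ • F.s)).2.2.2.1 κ).1, hHs, hevm T F hF hRF 0 0]
      simp only [if_true, map_sub, map_add, map_smul, map_mul, map_pow, smul_eq_mul,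
        Fin.sum_univ_three, b1, b2, b1', b2']
      have e : 4 * (F.ev z' t' (F.M 0 0) * F.ev z' t' (F.M 0 0) + 0 * 0 + 0 * 0) =
        4 * F.ev z' t' (F.M 0 0) ^ 2 := by ring
      rw [e]
      linarith)
    z t t.2.1 le_rfl
  simp only [map_sub, map_smul, smul_eq_mul] at h
  linarith

end Pool.Agent.Helper56.RF
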