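import Pool.Agent.Helper64.RF.GoalsD

/-!
# Project RF, packet SV: second variation inequality
-/

open Quaternion

namespace Pool.Agent.Helper56.RF

open Pool.Agent.Helper64.RF

lemma bb_re (G : ℍ[ℝ] → W →L[ℝ] W →L[ℝ] W) (x : ℍ[ℝ]) (V : W) (u : ℝ) :
    (bb G x V u).re = 1 := by
  simp [bb]

lemma bb_ne (G : ℍ[ℝ] → W →L[ℝ] W →L[ℝ] W) (x : ℍ[ℝ]) (V : W) (u : ℝ) :
    bb G x V u ≠ 0 := by
  intro h
  have := bb_re G x V u
  rw [h] at this
  simp at this

lemma bb_zero (G : ℍ[ℝ] → W →L[ℝ] W →L[ℝ] W) (x : ℍ[ℝ]) (V : W) : bb G x V 0 = 1 := by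
  simp [bb]

lemma nuu_zero (G : ℍ[ℝ] → W →L[ℝ] W →L[ℝ] W) (x : ℍ[ℝ]) (V v w : W) :
    nuu G x V v w 0 = v := by
  simp [nuu, bb_zero]

/-- The velocity of a `C¹` curve is continuous. -/
lemma C1.continuous_vel {c : ℝ → ℍ[ℝ]} (hc : C1 c) : Continuous (vel c) := by
  have h1 : Continuous (deriv c) := hc.1.continuous_deriv le_rfl
  have h2 : Continuous (fun t => (c t)⁻¹) := hc.1.continuous.inv₀ hc.2
  have : vel c = fun t => imL ((c t)⁻¹ * deriv c t) := by
    funext t; rfl
  rw [this]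
  exact imL.continuous.comp (h2.mul h1)

/-- A smooth field along a `C¹` curve is continuous. -/
lemma SS.cont_comp {F : Type*} [NormedAddCommGroup F] [NormedSpace ℝ F] {f : ℍ[ℝ] → F}
    (h : SS f) {c : ℝ → ℍ[ℝ]} (hc : C1 c) : Continuous (fun t => f (c t)) := by
  rw [continuous_iff_continuousAt]
  intro t
  exact ContinuousAt.comp (h.continuousAt (hc.2 t)) hc.1.continuous.continuousAt

/-- A smooth field along a `C¹` curve is `C¹`. -/
lemma SS.c1_comp {F : Type*} [NormedAddCommGroup F] [NormedSpace ℝ F] {f : ℍ[ℝ] → F}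
    (h : SS f) {c : ℝ → ℍ[ℝ]} (hc : C1 c) : ContDiff ℝ 1 (fun t => f (c t)) := by
  rw [contDiff_iff_contDiffAt]
  intro t
  have h1 : ContDiffAt ℝ 1 f (c t) := (h.contDiffAt (hc.2 t)).of_le (by
    exact_mod_cast le_top)
  exact h1.comp t hc.1.contDiffAt

/-- Continuity of the frame derivative along a curve. -/
lemma SS.cont_ed {F : Type*} [NormedAddCommGroup F] [NormedSpace ℝ F] {f : ℍ[ℝ] → F}
    (h : SS f) {c : ℝ → ℍ[ℝ]} (hc : C1 c) {u : ℝ → W} (hu : Continuous u) :
    Continuous (fun t => Ed (u t) f (c t)) := by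
  have h1 : Continuous (fun t => fderiv ℝ f (c t)) := by
    rw [continuous_iff_continuousAt]
    intro t
    have h2 : ContDiffAt ℝ (⊤ : ℕ∞) (fderiv ℝ f) (c t) :=
      (h.contDiffAt (hc.2 t)).fderiv_right (by simp)
    exact ContinuousAt.comp h2.continuousAt hc.1.continuous.continuousAt
  have h3 : Continuous (fun t => c t * iotL (u t)) :=
    hc.1.continuous.mul (iotL.continuous.comp hu)
  exact h1.clm_apply h3

/-- The velocity of a curve as derivative. -/
lemma hasDeriv_comp {F : Type*} [NormedAddCommGroup F] [NormedSpace ℝ F] {f : ℍ[ℝ] → F}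
    (h : SS f) {c : ℝ → ℍ[ℝ]} (hc : C1 c) (t : ℝ) :
    HasDerivAt (fun s => f (c s)) (Ed (vel c t) f (c t)) t :=
  h.chain (hc.1.differentiable (by norm_num) t).hasDerivAt (hc.2 t)

/-- Derivative of `bb` along the curve. -/
lemma hasDeriv_bb {G : ℍ[ℝ] → W →L[ℝ] W →L[ℝ] W} (hG : SS G) {c : ℝ → ℍ[ℝ]} (hc : C1 c)
    {V : ℝ → W} (hV : ContDiff ℝ 1 V) (u t : ℝ) :
    HasDerivAt (fun s => bb G (c s) (V s) u)
      (u • iot (deriv V t) - (u ^ 2 / 2) • iot (Ed (vel c t) G (c t) (V t) (V t) +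
        G (c t) (deriv V t) (V t) + G (c t) (V t) (deriv V t))) t := by
  have h1 := hasDeriv_comp hG hc t
  have hVd : HasDerivAt V (deriv V t) t := (hV.differentiable (by norm_num) t).hasDerivAt
  have h2 := (h1.clm_apply hVd).clm_apply hVd
  have h3 : HasDerivAt (fun s => iotL (G (c s) (V s) (V s))) _ t :=
    iotL.hasFDerivAt.comp_hasDerivAt t h2
  have h4 : HasDerivAt (fun s => iotL (V s)) (iotL (deriv V t)) t :=
    iotL.hasFDerivAt.comp_hasDerivAt t hVd
  have h5 := ((h4.const_smul u).const_add 1).sub (h3.const_smul (u ^ 2 / 2))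
  refine h5.congr_deriv ?_
  simp only [iotL_apply, add_apply]

/-- The varied curve is `C¹`. -/
lemma c1_cvar {G : ℍ[ℝ] → W →L[ℝ] W →L[ℝ] W} (hG : SS G) {c : ℝ → ℍ[ℝ]} (hc : C1 c)
    {V : ℝ → W} (hV : ContDiff ℝ 1 V) (u : ℝ) : C1 (cvar G c V u) := by
  constructor
  · have h1 := SS.c1_comp hG hc
    have h2 : ContDiff ℝ 1 (fun t => G (c t) (V t) (V t)) := (h1.clm_apply hV).clm_apply hV
    have h3 : ContDiff ℝ 1 (fun t => iotL (G (c t) (V t) (V t))) := iotL.contDiff.comp h2
    have h4 : ContDiff ℝ 1 (fun t => iotL (V t)) := iotL.contDiff.comp hV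
    have h5 : ContDiff ℝ 1 (fun t => (1 : ℍ[ℝ]) + u • iotL (V t) -
        (u ^ 2 / 2) • iotL (G (c t) (V t) (V t))) :=
      (contDiff_const.add (h4.const_smul u)).sub (h3.const_smul (u ^ 2 / 2))
    exact hc.1.mul h5
  · intro t
    exact mul_ne_zero (hc.2 t) (bb_ne _ _ _ _)

/-- The velocity of the varied curve. -/
lemma vel_cvar {G : ℍ[ℝ] → W →L[ℝ] W →L[ℝ] W} (hG : SS G) {c : ℝ → ℍ[ℝ]} (hc : C1 c)
    {V : ℝ → W} (hV : ContDiff ℝ 1 V) (u t : ℝ) :
    vel (cvar G c V u) t = nuu G (c t) (V t) (vel c t) (deriv V t) u := by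
  have h1 := hasDeriv_bb hG hc hV u t
  have h2 : HasDerivAt c (deriv c t) t := (hc.1.differentiable (by norm_num) t).hasDerivAt
  have h3 : deriv (cvar G c V u) t = _ := (h2.mul h1).deriv
  have hb := bb_ne G (c t) (V t) u
  have hc0 := hc.2 t
  unfold vel nuu
  rw [h3, im_add, ← im_conj _ _ hb, ← im_add]
  congr 1
  show (c t * bb G (c t) (V t) u)⁻¹ * _ = _
  rw [mul_inv_rev, mul_add]
  congr 1
  · simp only [mul_assoc]
  · rw [← mul_assoc, mul_assoc _ (c t)⁻¹ (c t), inv_mul_cancel₀ hc0, mul_one]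
    rfl

/-- Continuity of the energy density. -/
lemma cont_dens {g : ℍ[ℝ] → W →L[ℝ] W →L[ℝ] ℝ} (hg : SS g) {c : ℝ → ℍ[ℝ]} (hc : C1 c)
    {a b : ℝ → W} (ha : Continuous a) (hb : Continuous b) :
    Continuous (fun t => g (c t) (a t) (b t)) :=
  ((SS.cont_comp hg hc).clm_apply ha).clm_apply hb

lemma cont_br {a b : ℝ → W} (ha : Continuous a) (hb : Continuous b) :
    Continuous (fun t => br (a t) (b t)) := by
  have h1 : Continuous (fun t => iotL (a t)) := iotL.continuous.comp ha
  have h2 : Continuous (fun t => iotL (b t)) := iotL.continuous.comp hb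
  exact imL.continuous.comp ((h1.mul h2).sub (h2.mul h1))

/-- Continuity of the curvature along a curve. -/
lemma cont_Rm {G : ℍ[ℝ] → W →L[ℝ] W →L[ℝ] W} (hG : SS G) {c : ℝ → ℍ[ℝ]} (hc : C1 c)
    {a b d : ℝ → W} (ha : Continuous a) (hb : Continuous b) (hd : Continuous d) :
    Continuous (fun t => Rm G (c t) (a t) (b t) (d t)) := by
  have hGc := SS.cont_comp hG hc
  have e1 := ((SS.cont_ed hG hc ha).clm_apply hb).clm_apply hd
  have e2 := ((SS.cont_ed hG hc hb).clm_apply ha).clm_apply hd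
  have e3 := (hGc.clm_apply ha).clm_apply ((hGc.clm_apply hb).clm_apply hd)
  have e4 := (hGc.clm_apply hb).clm_apply ((hGc.clm_apply ha).clm_apply hd)
  have e5 := (hGc.clm_apply (cont_br ha hb)).clm_apply hd
  exact (((e1.sub e2).add e3).sub e4).sub e5

theorem sv (id2 : ID2) (tay : TAY) : SV := by
  intro g G hg hG B
  obtain ⟨C, hC0, hC⟩ := tay g G hg hG B
  refine ⟨C, hC0, ?_⟩
  intro c V hc hV hB u hu
  refine ⟨c1_cvar hG.smooth hc hV u, ?_⟩
  have hvel := C1.continuous_vel hc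
  have hVc := hV.continuous
  have hV' : Continuous (deriv V) := hV.continuous_deriv le_rfl
  -- the energy of a varied curve
  have hE : ∀ r : ℝ, En g (cvar G c V r) =
      ∫ t in (0:ℝ)..1, ph g G (c t) (V t) (vel c t) (deriv V t) r := by
    intro r
    unfold En
    refine intervalIntegral.integral_congr fun t _ => ?_
    show g (cvar G c V r t) (vel (cvar G c V r) t) (vel (cvar G c V r) t) = _
    rw [vel_cvar hG.smooth hc hV r t]
    rfl
  have hE0 : En g c = ∫ t in (0:ℝ)..1, ph g G (c t) (V t) (vel c t) (deriv V t) 0 := by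
    unfold En
    refine intervalIntegral.integral_congr fun t _ => ?_
    simp only [ph, nuu_zero, bb_zero, mul_one]
  have hcont : ∀ r : ℝ, Continuous
      (fun t => ph g G (c t) (V t) (vel c t) (deriv V t) r) := by
    intro r
    have h1 := c1_cvar hG.smooth hc hV r
    have h2 := C1.continuous_vel h1
    have h3 := cont_dens hg.smooth h1 h2 h2
    refine h3.congr fun t => ?_
    rw [vel_cvar hG.smooth hc hV r t]
    rfl
  have hDV : Continuous (DV G c V) := by
    exact hV'.add (((SS.cont_comp hG.smooth hc).clm_apply hvel).clm_apply hVc)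
  have hI : Continuous (fun t => g (c t) (DV G c V t) (DV G c V t)
              + g (c t) (Rm G (c t) (V t) (vel c t) (V t)) (vel c t)) :=
    (cont_dens hg.smooth hc hDV hDV).add
      (cont_dens hg.smooth hc (cont_Rm hG.smooth hc hVc hvel hVc) hvel)
  have hR : Continuous (fun t => ‖vel c t‖ ^ 2 + ‖deriv V t‖ ^ 2) :=
    (hvel.norm.pow 2).add (hV'.norm.pow 2)
  have hint : ∀ f : ℝ → ℝ, Continuous f → IntervalIntegrable f MeasureTheory.volume 0 1 :=
    fun f hf => hf.intervalIntegrable 0 1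
  have key : En g (cvar G c V u) + En g (cvar G c V (-u)) - 2 * En g c
          - 2 * u ^ 2 * (∫ t in (0:ℝ)..1, (g (c t) (DV G c V t) (DV G c V t)
              + g (c t) (Rm G (c t) (V t) (vel c t) (V t)) (vel c t))) =
      ∫ t in (0:ℝ)..1, (ph g G (c t) (V t) (vel c t) (deriv V t) u +
        ph g G (c t) (V t) (vel c t) (deriv V t) (-u) -
        2 * ph g G (c t) (V t) (vel c t) (deriv V t) 0 -
        u ^ 2 * deriv (deriv (ph g G (c t) (V t) (vel c t) (deriv V t))) 0) := by
    rw [hE u, hE (-u), hE0, ← intervalIntegral.integral_const_mul,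
      ← intervalIntegral.integral_const_mul,
      ← intervalIntegral.integral_add (hint _ (hcont u)) (hint _ (hcont (-u))),
      ← intervalIntegral.integral_sub
        ((hint _ (hcont u)).add (hint _ (hcont (-u)))) ((hint _ (hcont 0)).const_mul 2),
      ← intervalIntegral.integral_sub
        (((hint _ (hcont u)).add (hint _ (hcont (-u)))).sub ((hint _ (hcont 0)).const_mul 2))
        ((hint _ hI).const_mul _)]
    refine intervalIntegral.integral_congr fun t _ => ?_
    rw [id2 g G hg hG (c t) (V t) (vel c t) (deriv V t) (hc.2 t)]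
    unfold DV
    ring
  rw [key, ← intervalIntegral.integral_const_mul]
  refine (intervalIntegral.abs_integral_le_integral_abs zero_le_one).trans ?_
  have hcd : Continuous (fun t => ph g G (c t) (V t) (vel c t) (deriv V t) u +
        ph g G (c t) (V t) (vel c t) (deriv V t) (-u) -
        2 * ph g G (c t) (V t) (vel c t) (deriv V t) 0 -
        u ^ 2 * deriv (deriv (ph g G (c t) (V t) (vel c t) (deriv V t))) 0) := by
    have h1 := (((hcont u).add (hcont (-u))).sub ((hcont 0).const_mul 2)).sub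
      ((hI.const_mul 2).const_mul (u ^ 2))
    refine h1.congr fun t => ?_
    rw [id2 g G hg hG (c t) (V t) (vel c t) (deriv V t) (hc.2 t)]
    rfl
  refine intervalIntegral.integral_mono_on zero_le_one (hint _ hcd.abs)
    ((hint _ hR).const_mul _) ?_
  intro t ht
  exact hC (c t) (V t) (vel c t) (deriv V t) u (hc.2 t) (hB t ht) hu

end Pool.Agent.Helper56.RF
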